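import Pool.Agent.X261.MS.Kum
import Pool.Agent.X261.RO.Cert

/-!
Examples: fields with `7 ^ r` elements, and the field `k0(α)`.
-/

set_option autoImplicit false
set_option linter.all false

open Polynomial

namespace Pool.Agent.X261.MS

open Pool.Agent.X261.TW.Ex (evL addL smulL mulL ev_addL ev_smulL ev_mulL)
open Pool.Agent.X261.RO.Ce

/-- the coefficients -/
def cf7 : List ℤ := [6, 0, 4, 1, 1]

/-- the reductions of the iterated powers -/
def HH7 : List (List ℤ) := [[0, 1], [0, 4, 6, 6], [6, 2, 2, 3], [0, 0, 6, 5], [0, 1]]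

/-- the quotients -/
def QQ7 : List (List ℤ) := [[0, 4, 6, 1], [6, 2, 5, 3, 0, 5, 1, 5, 2, 5, 0, 6, 0, 1, 0, 3, 1, 6],
  [1, 0, 3, 6, 6, 6, 5, 6, 4, 0, 6, 3, 0, 4, 0, 5, 4, 3],
  [0, 1, 0, 4, 1, 3, 1, 3, 1, 2, 1, 5, 0, 2, 0, 6, 2, 5]]

theorem all7 : chkAll 7 cf7 HH7 QQ7 4 = true := by decide +kernel

theorem one7 : chkOne 7 cf7 (HH7.getD 2 []) [1, 1, 5, 1] [5, 0, 4] = true := by decide +kernel

instance : Fact (Nat.Prime 7) := ⟨by norm_num⟩

theorem ev7 {k F : Type} [Field k] [Field F] [Algebra k F] [CharP F 7] (a : F) :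
    evL cf7 a = aeval a (PP (k := k) 2 1 2) := by
  have h7 : (7 : F) = 0 := by
    have := CharP.cast_eq_zero F 7
    exact_mod_cast this
  have h2 : aeval a (C 2 : k[X]) = (2 : F) := by rw [aeval_C, map_ofNat]
  rw [PP_eq]
  simp only [map_add, map_sub, map_mul, map_pow, aeval_X, h2, C_1, map_one]
  simp only [cf7, evL]
  push_cast
  linear_combination (-2 - 5 * a - 3 * a ^ 2 - a ^ 3) * h7

theorem charP7 {k : Type} [Field k] [Finite k] {r : ℕ} (h : Nat.card k = 7 ^ r) : CharP k 7 := by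
  haveI := Fintype.ofFinite k
  obtain ⟨n, hp, hc⟩ := FiniteField.card k (ringChar k)
  rw [← Nat.card_eq_fintype_card, h] at hc
  have h1 : ringChar k ∣ 7 ^ r := by
    rw [hc]
    exact dvd_pow_self _ n.ne_zero
  have h2 := (Nat.prime_dvd_prime_iff_eq hp (by norm_num : Nat.Prime 7)).1 (hp.dvd_of_dvd_pow h1)
  rw [← h2]
  exact ringChar.charP k

theorem irr7 {k : Type} [Field k] [Finite k] {r : ℕ} (h : Nat.card k = 7 ^ r) (hr : Odd r) :
    Irreducible (PP (k := k) 2 1 2) := by
  haveI := charP7 h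
  refine irr_of (r := 7) h (n := 4) ?_ (PP_monic (by norm_num)).2 (by norm_num)
    fun F _ _ _ a ha d hd => ?_
  · exact (hr.coprime_two_right).pow_right 2
  · have hev : evL cf7 a = 0 := by rw [ev7 (k := k), ha]
    refine dvd_of_pow (r := 7) (by norm_num) (pow_n all7 hev) (fun l hl hl4 => ?_) hd
    have hl' : l = 2 := (Nat.prime_dvd_prime_iff_eq hl Nat.prime_two).1
      (hl.dvd_of_dvd_pow (show l ∣ 2 ^ 2 from hl4))
    subst hl'
    exact pow_ne all7 hev (by norm_num) one7

theorem not_sq7 {k : Type} [Field k] [Finite k] {r : ℕ} (h : Nat.card k = 7 ^ r) (hr : Odd r)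
    (v : k) : (2 : k) ^ 2 + 1 ≠ v ^ 2 := by
  haveI := charP7 h
  intro hv
  have h7 : (7 : k) = 0 := by
    have := CharP.cast_eq_zero k 7
    exact_mod_cast this
  have hirr : Irreducible (X ^ 2 + 2 : k[X]) := by
    refine irr_of (r := 7) h (n := 2) hr.coprime_two_right ?_ (by norm_num)
      fun F _ _ _ a ha d hd => ?_
    · compute_degree!
    · have h7F : (7 : F) = 0 := by
        have := CharP.cast_eq_zero F 7
        exact_mod_cast this
      have ha2 : a ^ 2 = -2 := by
        simp only [map_add, map_pow, aeval_X, map_ofNat] at ha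
        linear_combination ha
      refine dvd_of_pow (r := 7) (by norm_num) ?_ (fun l hl hl2 => ?_) hd
      · have : a ^ 7 ^ 2 = (a ^ 2) ^ 24 * a := by ring
        rw [this, ha2]
        linear_combination (2396745 * a) * h7F
      · have hl' : l = 2 := (Nat.prime_dvd_prime_iff_eq hl Nat.prime_two).1 hl2
        subst hl'
        intro h8
        have h9 : a ^ 7 = (a ^ 2) ^ 3 * a := by ring
        rw [show 2 / 2 = 1 from rfl, pow_one, h9, ha2] at h8
        have h10 : a * (2 : F) = 0 := by linear_combination (-1) * h8 - a * h7F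
        rcases mul_eq_zero.1 h10 with h11 | h11
        · rw [h11] at ha2
          have : (2 : F) = 0 := by linear_combination ha2
          have h12 : (1 : F) = 0 := by linear_combination h7F - 3 * this
          exact one_ne_zero h12
        · have h12 : (1 : F) = 0 := by linear_combination h7F - 3 * h11
          exact one_ne_zero h12
  have hroot : IsRoot (X ^ 2 + 2 : k[X]) v := by
    rw [IsRoot.def, eval_add, eval_pow, eval_X, eval_ofNat]
    linear_combination h7 - hv
  have := degree_eq_one_of_irreducible_of_root hirr hroot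
  rw [show (X ^ 2 + 2 : k[X]).degree = 2 by compute_degree!] at this
  exact absurd this (by decide)

/-! ### The field of rational functions -/

section rat

variable {k0 : Type} [Field k0]

theorem not_pow_rat {m : ℕ} {β : k0} {l : ℕ} (hl : l.Prime) (v : RatFunc k0) :
    (RatFunc.C β) ^ m + RatFunc.X ≠ v ^ l := by
  intro h
  have e : (RatFunc.C β) ^ m + RatFunc.X = algebraMap k0[X] (RatFunc k0) (X + C (β ^ m)) := by
    rw [map_add, RatFunc.algebraMap_X, RatFunc.algebraMap_C, map_pow, add_comm]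
  have hd : (algebraMap k0[X] (RatFunc k0) (X + C (β ^ m))).intDegree = 1 := by
    rw [RatFunc.intDegree_polynomial, natDegree_X_add_C]
    rfl
  have hv : v ≠ 0 := by
    rintro rfl
    rw [e, zero_pow hl.ne_zero] at h
    rw [h, RatFunc.intDegree_zero] at hd
    exact absurd hd (by norm_num)
  have hp : ∀ n : ℕ, (v ^ n).intDegree = n * v.intDegree := by
    intro n
    induction n with
    | zero => simp
    | succ n ih =>
      rw [pow_succ, RatFunc.intDegree_mul (pow_ne_zero n hv) hv, ih]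
      push_cast
      ring
  rw [e] at h
  rw [h, hp] at hd
  have h2 : (l : ℤ) ∣ 1 := ⟨_, hd.symm⟩
  have h3 := Int.natCast_dvd_natCast.1 (by exact_mod_cast h2 : (l : ℤ) ∣ ((1 : ℕ) : ℤ))
  exact hl.one_lt.ne' (Nat.dvd_one.1 h3)

/-- `(t + β) ^ (2 m) + α (t + β) ^ m - t` over `k0[α]`. -/
noncomputable def PZ (m : ℕ) (β : k0) : k0[X][X] :=
  (X + C (C β)) ^ (2 * m) + C X * (X + C (C β)) ^ m - X

theorem PZ_swap (m : ℕ) (β : k0) : Bivariate.swap (PZ m β) =
    C ((X + C β) ^ m) * X + C ((X + C β) ^ (2 * m) - X) := by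
  unfold PZ
  have h1 : Bivariate.swap (X : k0[X][X]) = C X := Bivariate.swap_Y
  have h2 : Bivariate.swap (C X : k0[X][X]) = X := Bivariate.swap_X
  have h3 : Bivariate.swap (C (C β) : k0[X][X]) = C (C β) := Bivariate.swap_C_C β
  rw [map_sub, map_add, map_mul, map_pow, map_pow, map_add, h1, h2, h3, C_sub, C_pow, C_pow, C_add]
  ring

theorem PZ_irr {m : ℕ} (hm : 0 < m) {β : k0} (hβ : β ≠ 0) : Irreducible (PZ m β) := by
  have hc : IsCoprime ((X + C β) ^ m : k0[X]) ((X + C β) ^ (2 * m) - X) := by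
    refine IsCoprime.pow_left ⟨C β⁻¹ * (1 - (X + C β) ^ (2 * m - 1)), C β⁻¹, ?_⟩
    have e1 : (X + C β : k0[X]) ^ (2 * m) = (X + C β) ^ (2 * m - 1) * (X + C β) := by
      rw [← pow_succ]
      congr 1
      omega
    have e2 : (C β⁻¹ : k0[X]) * C β = 1 := by
      rw [← C_mul, inv_mul_cancel₀ hβ, C_1]
    rw [e1]
    linear_combination e2
  have h1 : Irreducible (Bivariate.swap (PZ m β)) := by
    rw [PZ_swap]
    exact irreducible_C_mul_X_add_C (pow_ne_zero _ (X_add_C_ne_zero β)) hc.isRelPrime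
  exact (MulEquiv.irreducible_iff (Bivariate.swap (R := k0)).toMulEquiv).1 h1

theorem PZ_monic {m : ℕ} (hm : 0 < m) (β : k0) : (PZ m β).Monic := by
  have h1 : (PZ m β) = (X ^ (2 * m) + C X * X ^ m : k0[X][X]).comp (X + C (C β)) - X := by
    unfold PZ
    simp
  have h0 : (X ^ (2 * m) + C X * X ^ m : k0[X][X]).Monic := by
    refine (monic_X_pow (2 * m)).add_of_left ?_
    rw [degree_X_pow]
    refine lt_of_le_of_lt (degree_C_mul_X_pow_le m X) ?_
    exact_mod_cast (by omega : m < 2 * m)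
  have h5 : (X ^ (2 * m) + C X * X ^ m : k0[X][X]).natDegree = 2 * m := by
    rw [natDegree_add_eq_left_of_natDegree_lt, natDegree_X_pow]
    rw [natDegree_X_pow]
    exact lt_of_le_of_lt (natDegree_C_mul_X_pow_le X m) (by omega)
  have h2 : ((X ^ (2 * m) + C X * X ^ m : k0[X][X]).comp (X + C (C β))).Monic :=
    h0.comp_X_add_C (C β)
  have h3 : ((X ^ (2 * m) + C X * X ^ m : k0[X][X]).comp (X + C (C β))).natDegree = 2 * m := by
    rw [natDegree_comp, natDegree_X_add_C, mul_one, h5]
  rw [h1]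
  exact h2.sub_of_left (by
    rw [degree_X, degree_eq_natDegree h2.ne_zero, h3]
    exact_mod_cast (by omega : 1 < 2 * m))

theorem irr_rat {m : ℕ} (hm : 0 < m) {β : k0} (hβ : β ≠ 0) :
    Irreducible (PP m (RatFunc.X : RatFunc k0) (RatFunc.C β)) := by
  have h1 := ((PZ_monic hm β).irreducible_iff_irreducible_map_fraction_map
    (K := RatFunc k0)).1 (PZ_irr hm hβ)
  have h2 : (PZ m β).map (algebraMap k0[X] (RatFunc k0)) =
      PP m (RatFunc.X : RatFunc k0) (RatFunc.C β) := by
    unfold PZ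
    rw [PP_eq]
    simp only [Polynomial.map_sub, Polynomial.map_add, Polynomial.map_mul, Polynomial.map_pow,
      map_X, map_C, RatFunc.algebraMap_X, RatFunc.algebraMap_C]
  rwa [h2] at h1

end rat

end Pool.Agent.X261.MS
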