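import Pool.Agent.X261.MS.Gen

/-!
The curves `x ^ (2 m) + α x ^ m = t` and their sections `x = ξ ^ i (t + β)`.
-/

set_option autoImplicit false
set_option linter.all false

open Polynomial IsDedekindDomain WithZero
open scoped nonZeroDivisors Classical

namespace Pool.Agent.X261.MS

section kummer

variable {L : Type} [Field L]

/-- `X ^ m - a` is irreducible if `a` is not an `l`-th power for the primes `l` dividing `m`, if there
are enough roots of unity. -/
theorem irr_kummer {m : ℕ} (hm : 0 < m) {ξ : L} (hξ : IsPrimitiveRoot ξ m) {a : L}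
    (ha : ∀ l : ℕ, l.Prime → l ∣ m → ∀ v : L, a ≠ v ^ l) : Irreducible (X ^ m - C a : L[X]) := by
  rcases Nat.lt_or_ge 1 m with h1 | h1
  swap
  · have : m = 1 := by omega
    subst this
    rw [pow_one]
    exact irreducible_X_sub_C a
  have ha0 : a ≠ 0 := by
    rintro rfl
    obtain ⟨l, hl, hlm⟩ := Nat.exists_prime_and_dvd h1.ne'
    exact ha l hl hlm 0 (zero_pow hl.ne_zero).symm
  have hmon : (X ^ m - C a : L[X]).Monic := monic_X_pow_sub_C a hm.ne'
  have hdeg : (X ^ m - C a : L[X]).natDegree = m := natDegree_X_pow_sub_C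
  obtain ⟨h, hhm, hhi, hhd⟩ := exists_monic_irreducible_factor (X ^ m - C a : L[X])
    (fun hu => by
      have := natDegree_eq_zero_of_isUnit hu
      omega)
  haveI : Fact (Irreducible h) := ⟨hhi⟩
  have hd0 : 0 < h.natDegree := hhi.natDegree_pos
  have hθ : (AdjoinRoot.root h) ^ m = algebraMap L (AdjoinRoot h) a := by
    have h2 : aeval (AdjoinRoot.root h) (X ^ m - C a : L[X]) = 0 := by
      obtain ⟨r, hr⟩ := hhd
      rw [hr, map_mul, AdjoinRoot.aeval_eq, AdjoinRoot.mk_self, zero_mul]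
    rw [map_sub, map_pow, aeval_X, aeval_C, sub_eq_zero] at h2
    exact h2
  have hfin : Module.finrank L (AdjoinRoot h) = h.natDegree := by
    rw [(AdjoinRoot.powerBasis hhi.ne_zero).finrank, AdjoinRoot.powerBasis_dim]
  set b := Algebra.norm L (AdjoinRoot.root h) with hb
  have hbm : b ^ m = a ^ h.natDegree := by
    rw [hb, ← map_pow, hθ, Algebra.norm_algebraMap, hfin]
  have hb0 : b ≠ 0 := by
    rintro h0
    rw [h0, zero_pow hm.ne'] at hbm
    exact pow_ne_zero _ ha0 hbm.symm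
  obtain ⟨e, he⟩ : ∃ e, e = Nat.gcd h.natDegree m := ⟨_, rfl⟩
  have he0 : 0 < e := by
    rw [he]
    exact Nat.gcd_pos_of_pos_left _ hd0
  obtain ⟨r, hr⟩ : e ∣ m := he ▸ Nat.gcd_dvd_right _ _
  -- the `e`-th power of `a`
  obtain ⟨c, hc⟩ : ∃ c : L, a ^ e = c ^ m := by
    refine ⟨b ^ (Nat.gcdA h.natDegree m) * a ^ (Nat.gcdB h.natDegree m), ?_⟩
    have h2 := Nat.gcd_eq_gcd_ab h.natDegree m
    rw [← he] at h2
    have h3 : a ^ (e : ℤ) = (a ^ h.natDegree) ^ (Nat.gcdA h.natDegree m) *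
        (a ^ m) ^ (Nat.gcdB h.natDegree m) := by
      rw [h2, zpow_add₀ ha0, zpow_mul, zpow_mul, zpow_natCast, zpow_natCast]
    rw [zpow_natCast] at h3
    rw [h3, ← hbm, mul_pow, ← zpow_natCast (b ^ _), ← zpow_natCast (a ^ _), ← zpow_mul, ← zpow_mul,
      ← zpow_natCast b m, ← zpow_natCast a m, ← zpow_mul, ← zpow_mul]
    congr 2 <;> ring
  have hc0 : c ≠ 0 := by
    rintro rfl
    rw [zero_pow hm.ne'] at hc
    exact pow_ne_zero _ ha0 hc
  have hξe : IsPrimitiveRoot (ξ ^ r) e := hξ.pow hm (by rw [hr, mul_comm])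
  have hω : (a / c ^ r) ^ e = 1 := by
    rw [div_pow, ← pow_mul, mul_comm r e, ← hr, hc, div_self (pow_ne_zero _ hc0)]
  haveI : NeZero e := ⟨he0.ne'⟩
  obtain ⟨i, -, hi⟩ := hξe.eq_pow_of_pow_eq_one hω
  have ha' : a = (ξ ^ i * c) ^ r := by
    rw [mul_pow, ← pow_mul, mul_comm i r, pow_mul, hi]
    field_simp
  have hr1 : r = 1 := by
    by_contra h2
    obtain ⟨l, hl, ⟨u, hu⟩⟩ := Nat.exists_prime_and_dvd h2
    refine ha l hl ⟨e * u, by rw [hr, hu]; ring⟩ ((ξ ^ i * c) ^ u) ?_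
    rw [← pow_mul, mul_comm u l, ← hu]
    exact ha'
  rw [hr1, mul_one] at hr
  have h5 : m ∣ h.natDegree := by
    rw [hr, he]
    exact Nat.gcd_dvd_left _ _
  have h6 : h = X ^ m - C a := by
    refine (eq_of_monic_of_dvd_of_natDegree_le hhm hmon hhd ?_).symm
    rw [hdeg]
    exact Nat.le_of_dvd hd0 h5
  rw [← h6]
  exact hhi

end kummer

section norm

variable {k : Type} [Field k]

/-- The norm of minus the root. -/
theorem norm_root {P : k[X]} (hP : Irreducible P) (hm : P.Monic) (he : Even P.natDegree) :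
    Algebra.norm k (-(AdjoinRoot.root P)) = P.eval 0 := by
  haveI : Fact (Irreducible P) := ⟨hP⟩
  have h1 := Algebra.PowerBasis.norm_gen_eq_coeff_zero_minpoly (AdjoinRoot.powerBasis hP.ne_zero)
  rw [AdjoinRoot.powerBasis_gen, AdjoinRoot.powerBasis_dim, he.neg_one_pow, one_mul] at h1
  have h2 : minpoly k (AdjoinRoot.root P) = P := by
    rw [AdjoinRoot.minpoly_root hP.ne_zero, hm.leadingCoeff, inv_one, C_1, mul_one]
  have hfin : Module.finrank k (AdjoinRoot P) = P.natDegree := by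
    rw [(AdjoinRoot.powerBasis hP.ne_zero).finrank, AdjoinRoot.powerBasis_dim]
  have h3 : (-(AdjoinRoot.root P)) = algebraMap k (AdjoinRoot P) (-1) * AdjoinRoot.root P := by
    rw [map_neg, map_one, neg_one_mul]
  rw [h3, map_mul, Algebra.norm_algebraMap, hfin, he.neg_one_pow, one_mul, h1, h2,
    coeff_zero_eq_eval_zero]

end norm

section fam

variable {k : Type} [Field k] {m : ℕ} {α β ξ : k}

/-- `x ^ (2 m) + α x ^ m`. -/
noncomputable def f0 (m : ℕ) (α : k) : k[X] := X ^ (2 * m) + C α * X ^ m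

/-- `P(t) = (t + β) ^ (2 m) + α (t + β) ^ m - t`. -/
noncomputable def PP (m : ℕ) (α β : k) : k[X] :=
  (X + C β) ^ (2 * m) + C α * (X + C β) ^ m - X

/-- `c_i = ξ ^ i (t + β)`. -/
noncomputable def cc (ξ β : k) (i : ℕ) : k[X] := C (ξ ^ i) * (X + C β)

theorem f0_monic (hm : 0 < m) : (f0 m α).Monic := by
  unfold f0
  refine (monic_X_pow (2 * m)).add_of_left ?_
  rw [degree_X_pow]
  refine lt_of_le_of_lt (degree_C_mul_X_pow_le m α) ?_
  exact_mod_cast (by omega : m < 2 * m)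

theorem f0_deg (hm : 0 < m) : (f0 m α).natDegree = 2 * m := by
  unfold f0
  rw [natDegree_add_eq_left_of_natDegree_lt, natDegree_X_pow]
  rw [natDegree_X_pow]
  exact lt_of_le_of_lt (natDegree_C_mul_X_pow_le α m) (by omega)

theorem f0_der (hm : 1 < m) (hmk : (m : k) ≠ 0) (hα : α ≠ 0) : derivative (f0 m α) ≠ 0 := by
  intro h
  have h1 := congrArg (fun q => q.coeff (m - 1)) h
  simp only [f0, derivative_add, derivative_X_pow, derivative_mul, derivative_C, zero_mul,
    zero_add, coeff_add, coeff_zero, coeff_C_mul, coeff_X_pow] at h1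
  rw [if_neg (by omega), if_pos trivial, mul_zero, zero_add, mul_one] at h1
  exact mul_ne_zero hα hmk h1

theorem PP_monic (hm : 0 < m) : (PP m α β).Monic ∧ (PP m α β).natDegree = 2 * m := by
  have h1 : (PP m α β) = (f0 m α).comp (X + C β) - X := by
    unfold PP f0
    simp
  have h2 : ((f0 m α).comp (X + C β)).Monic := (f0_monic hm).comp_X_add_C β
  have h3 : ((f0 m α).comp (X + C β)).natDegree = 2 * m := by
    rw [natDegree_comp, natDegree_X_add_C, mul_one, f0_deg hm]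
  have h4 : (X : k[X]).natDegree < ((f0 m α).comp (X + C β)).natDegree := by
    rw [h3, natDegree_X]
    omega
  refine ⟨?_, ?_⟩
  · rw [h1]
    exact h2.sub_of_left (by
      rw [degree_X, degree_eq_natDegree h2.ne_zero, h3]
      exact_mod_cast (by omega : 1 < 2 * m))
  · rw [h1, natDegree_sub_eq_left_of_natDegree_lt h4, h3]

theorem eval_cc (hξ : ξ ^ m = 1) (i : ℕ) :
    (Pool.Agent.X261.TS.graph (f0 m α)).eval (cc ξ β i) = PP m α β := by
  have h1 : (ξ ^ i) ^ m = 1 := by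
    rw [← pow_mul, mul_comm, pow_mul, hξ, one_pow]
  have h2 : (ξ ^ i) ^ (2 * m) = 1 := by
    rw [mul_comm, pow_mul, h1, one_pow]
  unfold Pool.Agent.X261.TS.graph
  rw [eval_sub, eval_C, eval_map]
  show (f0 m α).comp (cc ξ β i) - X = _
  unfold f0 cc PP
  simp only [add_comp, mul_comp, pow_comp, X_comp, C_comp, mul_pow, ← C_pow, h1, h2, C_1, one_mul]

theorem cc_ne (hm : 1 < m) (hξ : IsPrimitiveRoot ξ m) {i i' : Fin m} (h : i ≠ i') :
    ¬ PP m α β ∣ cc ξ β (i' : ℕ) - cc ξ β (i : ℕ) := by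
  intro h1
  have h2 : cc ξ β (i' : ℕ) - cc ξ β (i : ℕ) = C (ξ ^ (i' : ℕ) - ξ ^ (i : ℕ)) * (X + C β) := by
    unfold cc
    rw [C_sub]
    ring
  have h3 : ξ ^ (i' : ℕ) - ξ ^ (i : ℕ) ≠ 0 := by
    rw [sub_ne_zero]
    intro h4
    exact h (Fin.ext (hξ.pow_inj i'.2 i.2 h4).symm)
  rw [h2] at h1
  have h5 := natDegree_le_of_dvd h1 (mul_ne_zero (C_ne_zero.2 h3) (X_add_C_ne_zero β))
  rw [(PP_monic (by omega : 0 < m)).2, natDegree_C_mul h3, natDegree_X_add_C] at h5
  omega

/-- the last factor of `x ^ (2 m) + α x ^ m - t` modulo `P` -/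
noncomputable def gg (m : ℕ) (α β : k) : (AdjoinRoot (PP m α β))[X] :=
  X ^ m - C (-(AdjoinRoot.mk (PP m α β) ((X + C β) ^ m + C α)))

theorem PP_eq : PP m α β = (X + C β) ^ (2 * m) + C α * (X + C β) ^ m - X := rfl

theorem X_mod {A : Type} [CommRing A] (φ : k[X] →+* A) (h0 : φ (PP m α β) = 0) :
    φ X = φ ((X + C β) ^ m) * φ ((X + C β) ^ m + C α) := by
  rw [PP_eq, map_sub, sub_eq_zero] at h0
  rw [← h0, ← map_mul]
  congr 1
  ring

theorem mod_PP (hm : 0 < m) (hξ : IsPrimitiveRoot ξ m) (hP : Irreducible (PP m α β)) :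
    (Pool.Agent.X261.TS.graph (f0 m α)).map (AdjoinRoot.mk (PP m α β)) =
      (∏ i : Fin m, (X - C (AdjoinRoot.mk (PP m α β) (cc ξ β (i : ℕ))))) * gg m α β := by
  haveI : Fact (Irreducible (PP m α β)) := ⟨hP⟩
  set φ := AdjoinRoot.mk (PP m α β) with hφ
  have hξ' : IsPrimitiveRoot (φ (C ξ)) m :=
    hξ.map_of_injective (f := φ.comp C) ((φ.comp C).injective)
  have e1 : ∏ i : Fin m, (X - C (φ (cc ξ β (i : ℕ)))) = X ^ m - C (φ (X + C β) ^ m) := by
    rw [X_pow_sub_C_eq_prod hξ' hm rfl, ← Fin.prod_univ_eq_prod_range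
      (fun i => X - C ((φ (C ξ)) ^ i * φ (X + C β))) m]
    refine Finset.prod_congr rfl fun i _ => ?_
    unfold cc
    rw [map_mul, C_pow, map_pow]
  have e2 : φ X = φ ((X + C β) ^ m) * φ ((X + C β) ^ m + C α) := X_mod φ AdjoinRoot.mk_self
  rw [e1]
  unfold gg Pool.Agent.X261.TS.graph f0
  rw [Polynomial.map_sub, map_C, Polynomial.map_map, Polynomial.map_add, Polynomial.map_mul,
    Polynomial.map_pow, Polynomial.map_pow, map_X, map_C, ← hφ, e2]
  have e3 : (φ.comp C) α = φ (C α) := rfl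
  rw [e3, C_mul, C_neg, map_add φ, C_add, map_pow φ, C_pow]
  ring

theorem gg_irr (hm : 1 < m) (hξ : IsPrimitiveRoot ξ m) (hP : Irreducible (PP m α β))
    (ha : ∀ l : ℕ, l.Prime → l ∣ m → ∀ v : k, β ^ m + α ≠ v ^ l) : Irreducible (gg m α β) := by
  haveI : Fact (Irreducible (PP m α β)) := ⟨hP⟩
  set φ := AdjoinRoot.mk (PP m α β) with hφ
  have hξ' : IsPrimitiveRoot (φ (C ξ)) m :=
    hξ.map_of_injective (f := φ.comp C) ((φ.comp C).injective)
  have hm0 : 0 < m := by omega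
  have hev : (PP m α β).eval 0 = β ^ m * (β ^ m + α) := by
    unfold PP
    simp only [eval_sub, eval_add, eval_mul, eval_pow, eval_X, eval_C, zero_add, sub_zero]
    ring
  have hP0 : (PP m α β).eval 0 ≠ 0 := by
    intro h0
    have h1 : (X : k[X]) ∣ PP m α β := by
      rw [X_dvd_iff, coeff_zero_eq_eval_zero]
      exact h0
    have h2 := irreducible_X.associated_of_dvd hP h1
    have h3 := natDegree_eq_of_degree_eq (degree_eq_degree_of_associated h2)
    rw [natDegree_X, (PP_monic hm0).2] at h3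
    omega
  have hβ : β ≠ 0 := by
    rintro rfl
    rw [hev, zero_pow hm0.ne', zero_mul] at hP0
    exact hP0 rfl
  unfold gg
  refine irr_kummer hm0 hξ' fun l hl hlm v hv => ?_
  have e2 : φ X = φ (X + C β) ^ m * φ ((X + C β) ^ m + C α) := by
    rw [X_mod φ AdjoinRoot.mk_self, map_pow]
  obtain ⟨r, hr⟩ := hlm
  have e3 : -(AdjoinRoot.root (PP m α β)) = (φ (X + C β) ^ r * v) ^ l := by
    rw [mul_pow, ← hv, ← pow_mul, mul_comm r l, ← hr]
    have : AdjoinRoot.root (PP m α β) = φ X := rfl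
    rw [this, e2]
    ring
  have e4 := norm_root hP (PP_monic hm0).1 (by
    rw [(PP_monic hm0).2]
    exact even_two_mul m)
  rw [e3, map_pow, hev] at e4
  refine ha l hl ⟨r, hr⟩ (Algebra.norm k (φ (X + C β) ^ r * v) / β ^ r) ?_
  rw [div_pow, e4, ← pow_mul, mul_comm r l, ← hr]
  field_simp

end fam

end Pool.Agent.X261.MS
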