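import Pool.Agent.X261.MS.Cont

/-!
The general theorem on several sections, and the curves `f0(x) = t`.
-/

set_option autoImplicit false
set_option linter.all false

open Polynomial IsDedekindDomain WithZero
open scoped nonZeroDivisors Classical

namespace Pool.Agent.X261.MS

open Pool.Agent.TH115.GD (IsTower)
open Pool.Agent.Y160
open Pool.Agent.Y160.SE (SmoothC)
open Pool.Agent.Y160.SL (Concl)
open Pool.Agent.Y160.FT (Pres)
open Pool.Agent.Y160.T7
open Pool.Agent.Y228.FT
open Pool.Agent.X261.TS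
open Pool.Agent.X261.BC

section main

variable {k k' K F : Type} [Field k] [Field k'] [Algebra k k'] [Field K] [Algebra k[X] K]
  [Field F] [Algebra k'[X] F] [IsFractionRing k'[X] F] [Algebra K F] [IsFractionRing k[X] K]

theorem mainS (hT : IsTower k k' K F) {p s : ℕ} (hp : p.Prime) {ζ : k}
    (hζ : IsPrimitiveRoot ζ (p ^ (s + 1))) {f : k[X][X]} (hmon : f.Monic)
    (hcop : p.Coprime f.natDegree) (hirr : Irreducible (f.map (mapRingHom (algebraMap k k'))))
    (hder : derivative f ≠ 0) (hsm : SmoothC f)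
    (hR : ∃ _ : IsDedekindDomain (AdjoinRoot f), PropT p k (AdjoinRoot f)) {m : ℕ}
    (hn2 : m + 1 < f.natDegree) {P : k[X]} {c : Fin m → k[X]}
    (hPi : Irreducible P) (hPc : ∀ i, f.eval (c i) = P) (hcc : ∀ i i', i ≠ i' → ¬ P ∣ c i' - c i)
    {g : (AdjoinRoot P)[X]}
    (hg : f.map (AdjoinRoot.mk P) = (∏ i, (X - C (AdjoinRoot.mk P (c i)))) * g)
    (hgi : Irreducible g) {j : ℕ} (hj : p ^ (s + 1) ∣ f.natDegree * j + 1) :
    Concl p (p ^ (s + 1)) m k k' F ((f.scaleRoots (P ^ j)).map (algebraMap k[X] K)) := by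
  have hirr2 := irrF' hT hmon hirr
  obtain ⟨hD, hprop⟩ := hR
  have hpres := pres_adjoin f
  refine conclM hT hp rfl hζ hmon hcop hn2 hPi hPc hcc hj ?_ (sepK hT hmon hirr hder) hsm hirr2
  refine ⟨AdjoinRoot f, inferInstance, hD, inferInstance, _, _, hpres, hprop, ?_⟩
  set t := AdjoinRoot.of f X with ht
  set x := AdjoinRoot.root f with hx
  have hA : ∀ i, Prime (aeval t (c i) - x) := fun i =>
    Pool.Agent.X261.RO.prime_A hpres hmon (by omega) (by rw [hPc i]; exact hPi)
  have hAA : ∀ i i', i ≠ i' → ¬ (aeval t (c i) - x) ∣ (aeval t (c i') - x) := fun i i' hne =>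
    ndvd_A hpres (hPc i) (hcc i i' hne)
  have hAP : ∀ i, (aeval t (c i) - x) ∣ aeval t P := by
    intro i
    have := Pool.Agent.X261.RO.A_dvd_P hpres (c := c i)
    rwa [hPc i] at this
  obtain ⟨B, hB⟩ := prod_dvd Finset.univ (fun i => aeval t (c i) - x) (fun i _ => hA i)
    (fun i _ i' _ => hAA i i') (n := aeval t P) (fun i _ => hAP i)
  have hA0 : ∏ i, (aeval t (c i) - x) ≠ 0 := Finset.prod_ne_zero_iff.2 fun i _ => (hA i).ne_zero
  have hP0 : aeval t P ≠ 0 := by
    intro h0
    have h1 : eval₂ ((aeval t : k[X] →ₐ[k] AdjoinRoot f) : k[X] →+* AdjoinRoot f) x (C P) = 0 := by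
      rw [eval₂_C]
      exact h0
    have h2 := (hpres.ker _).1 h1
    have h3 := natDegree_le_of_dvd h2 (C_ne_zero.2 hPi.ne_zero)
    rw [natDegree_C] at h3
    omega
  exact ⟨B, prime_BM hpres hPi hg hgi hA0 hP0 hB, not_dvdM hpres hmon hn2 hPi hg hA0 hB, hB⟩

end main

section line

variable {k : Type} [Field k]

theorem graph_irr (f0 : k[X]) : Irreducible (graph f0) := by
  have h1 : Irreducible (X - C f0 : k[X][X]) := irreducible_X_sub_C f0
  have h2 : Irreducible (Bivariate.swap (X - C f0 : k[X][X])) :=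
    (MulEquiv.irreducible_iff (Bivariate.swap (R := k)).toMulEquiv).2 h1
  have h3 := swap_sup f0 1
  rw [pow_one] at h3
  rw [h3] at h2
  have h4 := (irreducible_isUnit_mul (isUnit_C.2 (isUnit_C.2
    (IsUnit.mk0 _ (neg_ne_zero.2 one_ne_zero))))).1 h2
  have h5 : graph f0 = sup f0 1 := by
    unfold graph sup
    rw [pow_one]
  rwa [h5]

theorem graph_map {k' : Type} [Field k'] (φ : k →+* k') (f0 : k[X]) :
    (graph f0).map (mapRingHom φ) = graph (f0.map φ) := by
  unfold graph
  rw [Polynomial.map_sub, map_C, coe_mapRingHom, map_X, Polynomial.map_map, Polynomial.map_map]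
  congr 2
  apply RingHom.ext
  intro y
  simp

theorem graph_smooth (f0 : k[X]) :
    Ideal.span {graph f0, derivative (graph f0),
      (graph f0).sum fun i a => C (derivative a) * X ^ i} = ⊤ := by
  have h5 : graph f0 = sup f0 1 := by
    unfold graph sup
    rw [pow_one]
  have h6 : (graph f0).sum (fun i a => C (derivative a) * X ^ i) = dtt (sup f0 1) := by
    rw [h5]
    rfl
  rw [h6, dtt_sup, pow_one, derivative_X]
  rw [Ideal.eq_top_iff_one]
  have m3 : -C (1 : k[X]) ∈ Ideal.span {graph f0, derivative (graph f0), (-C (1 : k[X]))} :=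
    Ideal.subset_span (by simp)
  have h7 := Ideal.mul_mem_left _ (-1 : k[X][X]) m3
  have h8 : (-1 : k[X][X]) * -C (1 : k[X]) = 1 := by
    rw [C_1]
    ring
  rwa [h8] at h7

theorem graph_ring (p : ℕ) (f0 : k[X]) :
    IsDedekindDomain (AdjoinRoot (graph f0)) ∧
    (∀ I : Ideal (AdjoinRoot (graph f0)), (I ^ p).IsPrincipal → I.IsPrincipal) ∧
    ∀ u : (AdjoinRoot (graph f0))ˣ, ∃ d : k,
      (u : AdjoinRoot (graph f0)) = algebraMap k _ d := by
  obtain ⟨e, he⟩ := exists_equiv (pres_graph f0)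
  refine ⟨dedekind_equiv e, principal_equiv e (fun I _ =>
    IsPrincipalIdealRing.principal I), fun u => ?_⟩
  have hu : IsUnit (e.symm (u : AdjoinRoot (graph f0))) := u.isUnit.map e.symm
  obtain ⟨d, -, hd⟩ := Polynomial.isUnit_iff.1 hu
  refine ⟨d, ?_⟩
  rw [← he]
  rw [show algebraMap k k[X] d = C d from rfl, hd, RingEquiv.apply_symm_apply]

end line

end Pool.Agent.X261.MS
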