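import Pool.Agent.X261.RO.Fam

/-!
A prime `P = f(c_i(t), t)` of `k[t]` with several primes of degree one above it.
-/

set_option autoImplicit false
set_option linter.all false

open Polynomial IsDedekindDomain WithZero
open scoped nonZeroDivisors Classical

namespace Pool.Agent.X261.MS

open Pool.Agent.Y160.SE (IsPw)
open Pool.Agent.Y160.FT (Pres)
open Pool.Agent.Y228.FT
open Pool.Agent.X261.TS (dvd_pres exists_exp exists_shift)
open Pool.Agent.X261.RO (ev ev_A ev_C dvd_A A_dvd_P prime_A eq_of_dvd)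

section prod

variable {R : Type} [CommRing R] [IsDomain R] {ι : Type}

theorem prod_dvd (s : Finset ι) (A : ι → R) (hA : ∀ i ∈ s, Prime (A i))
    (hAA : ∀ i ∈ s, ∀ j ∈ s, i ≠ j → ¬ A i ∣ A j) {n : R} (h : ∀ i ∈ s, A i ∣ n) :
    ∏ i ∈ s, A i ∣ n := by
  induction s using Finset.induction_on with
  | empty => rw [Finset.prod_empty]; exact one_dvd n
  | insert a s ha ih =>
    obtain ⟨r, hr⟩ := ih (fun i hi => hA i (Finset.mem_insert_of_mem hi))
      (fun i hi j hj => hAA i (Finset.mem_insert_of_mem hi) j (Finset.mem_insert_of_mem hj))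
      (fun i hi => h i (Finset.mem_insert_of_mem hi))
    have h1 := h a (Finset.mem_insert_self a s)
    have hpa := hA a (Finset.mem_insert_self a s)
    rw [hr] at h1
    rcases hpa.dvd_or_dvd h1 with h2 | ⟨r', hr'⟩
    · obtain ⟨i, hi, h3⟩ := (Prime.dvd_finset_prod_iff hpa _).1 h2
      exact absurd h3 (hAA a (Finset.mem_insert_self a s) i (Finset.mem_insert_of_mem hi)
        (fun e => ha (e ▸ hi)))
    · rw [Finset.prod_insert ha, hr, hr']
      exact ⟨r', by ring⟩

end prod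

section primes

variable {k R : Type} [Field k] [CommRing R] [IsDomain R] [Algebra k R] {t x : R} {f : k[X][X]}
  {m : ℕ} {c : Fin m → k[X]} {P : k[X]}

theorem ndvd_A (h : Pres t x f) {c c' : k[X]} (hP : f.eval c = P) (hc : ¬ P ∣ c' - c) :
    ¬ (aeval t c - x) ∣ (aeval t c' - x) := by
  intro h1
  rw [← ev_A t x c', dvd_A h, eval_sub, eval_C, eval_X, hP] at h1
  exact hc h1

/-- the product of the primes of degree one -/
theorem ev_prod (t x : R) (c : Fin m → k[X]) :
    ev t x (∏ i, (C (c i) - X)) = ∏ i, (aeval t (c i) - x) := by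
  have h1 : ev t x (∏ i, (C (c i) - X)) = ∏ i, ev t x (C (c i) - X) := by
    unfold ev
    exact eval₂_finsetProd _ _ _ _
  rw [h1]
  exact Finset.prod_congr rfl fun i _ => ev_A t x (c i)

theorem dvd_BM (h : Pres t x f) {g : (AdjoinRoot P)[X]}
    (hg : f.map (AdjoinRoot.mk P) = (∏ i, (X - C (AdjoinRoot.mk P (c i)))) * g) {B : R}
    (hA : ∏ i, (aeval t (c i) - x) ≠ 0) (hB : aeval t P = (∏ i, (aeval t (c i) - x)) * B)
    (hP : Irreducible P) (p : k[X][X]) :
    B ∣ ev t x p ↔ g ∣ p.map (AdjoinRoot.mk P) := by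
  haveI : Fact (Irreducible P) := ⟨hP⟩
  have h1 : B ∣ ev t x p ↔ aeval t P ∣ ev t x ((∏ i, (C (c i) - X)) * p) := by
    rw [hB]
    have e : ev t x ((∏ i, (C (c i) - X)) * p) = (∏ i, (aeval t (c i) - x)) * ev t x p := by
      rw [← ev_prod t x]
      unfold ev
      rw [eval₂_mul]
    rw [e]
    exact (mul_dvd_mul_iff_left hA).symm
  rw [h1]
  unfold ev
  have e : (∏ i, (C (c i) - X) : k[X][X]).map (AdjoinRoot.mk P) =
      (-1) ^ m * ∏ i, (X - C (AdjoinRoot.mk P (c i))) := by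
    have h2 : (∏ i, (C (c i) - X) : k[X][X]).map (AdjoinRoot.mk P) =
        ∏ i, (-1) * (X - C (AdjoinRoot.mk P (c i))) := by
      rw [Polynomial.map_prod]
      refine Finset.prod_congr rfl fun i _ => ?_
      rw [Polynomial.map_sub, map_C, map_X]
      ring
    rw [h2, Finset.prod_mul_distrib, Finset.prod_const, Finset.card_univ, Fintype.card_fin]
  have hne : (∏ i, (X - C (AdjoinRoot.mk P (c i))) : (AdjoinRoot P)[X]) ≠ 0 :=
    Finset.prod_ne_zero_iff.2 fun i _ => X_sub_C_ne_zero _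
  rw [dvd_pres h, hg, Polynomial.map_mul, e]
  have h3 : IsUnit ((-1 : (AdjoinRoot P)[X]) ^ m) := (isUnit_one.neg).pow m
  rw [mul_assoc, h3.dvd_mul_left]
  exact mul_dvd_mul_iff_left hne

theorem prime_BM (h : Pres t x f) (hP : Irreducible P) {g : (AdjoinRoot P)[X]}
    (hg : f.map (AdjoinRoot.mk P) = (∏ i, (X - C (AdjoinRoot.mk P (c i)))) * g)
    (hgi : Irreducible g) {B : R} (hA : ∏ i, (aeval t (c i) - x) ≠ 0) (hP0 : aeval t P ≠ 0)
    (hB : aeval t P = (∏ i, (aeval t (c i) - x)) * B) : Prime B := by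
  haveI : Fact (Irreducible P) := ⟨hP⟩
  refine ⟨?_, ?_, ?_⟩
  · rintro rfl
    rw [mul_zero] at hB
    exact hP0 hB
  · intro hu
    have h1 : B ∣ ev t x (1 : k[X][X]) := by
      unfold ev
      rw [eval₂_one]
      exact hu.dvd
    rw [dvd_BM h hg hA hB hP, Polynomial.map_one] at h1
    exact hgi.not_isUnit (isUnit_of_dvd_one h1)
  · intro a b hab
    obtain ⟨a', ha'⟩ := h.surj a
    obtain ⟨b', hb'⟩ := h.surj b
    rw [← ha', ← hb', ← eval₂_mul] at hab
    rw [← ha', ← hb']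
    have h1 := (dvd_BM h hg hA hB hP (a' * b')).1 hab
    rw [Polynomial.map_mul] at h1
    rcases hgi.prime.dvd_or_dvd h1 with h2 | h2
    · exact Or.inl ((dvd_BM h hg hA hB hP a').2 h2)
    · exact Or.inr ((dvd_BM h hg hA hB hP b').2 h2)

theorem not_dvdM (h : Pres t x f) (hm : f.Monic) (hn : m + 1 < f.natDegree)
    (hP : Irreducible P) {g : (AdjoinRoot P)[X]}
    (hg : f.map (AdjoinRoot.mk P) = (∏ i, (X - C (AdjoinRoot.mk P (c i)))) * g)
    {B : R} (hA : ∏ i, (aeval t (c i) - x) ≠ 0)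
    (hB : aeval t P = (∏ i, (aeval t (c i) - x)) * B) (i : Fin m) : ¬ B ∣ (aeval t (c i) - x) := by
  haveI : Fact (Irreducible P) := ⟨hP⟩
  intro h0
  rw [← ev_A t x, dvd_BM h hg hA hB hP] at h0
  have hne : (∏ i, (X - C (AdjoinRoot.mk P (c i))) : (AdjoinRoot P)[X]) ≠ 0 :=
    Finset.prod_ne_zero_iff.2 fun i _ => X_sub_C_ne_zero _
  have h1 : g.natDegree = f.natDegree - m := by
    have h2 := congrArg natDegree hg
    rw [hm.natDegree_map] at h2
    have hg0 : g ≠ 0 := by
      rintro rfl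
      rw [mul_zero, natDegree_zero] at h2
      omega
    rw [natDegree_mul hne hg0, natDegree_prod _ _ fun i _ => X_sub_C_ne_zero _] at h2
    simp only [natDegree_X_sub_C, Finset.sum_const, Finset.card_univ, Fintype.card_fin,
      smul_eq_mul, mul_one] at h2
    omega
  have h3 : ((C (c i) - X : k[X][X]).map (AdjoinRoot.mk P)) ≠ 0 := by
    rw [Polynomial.map_sub, map_C, map_X, ← neg_sub, neg_ne_zero]
    exact X_sub_C_ne_zero _
  have h4 := natDegree_le_of_dvd h0 h3
  rw [Polynomial.map_sub, map_C, map_X, ← neg_sub, natDegree_neg, natDegree_X_sub_C] at h4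
  omega

end primes

section adjust

variable {k K R N : Type} [Field k] [CommRing R] [IsDedekindDomain R] [Field N] [Algebra R N]
  [IsFractionRing R N] [Algebra k[X] R]

/-- The adjustment at several primes. -/
theorem adjustF {q : ℕ} (hq : 0 < q) {ι : Type} (s : Finset ι) (A : ι → R)
    (hA : ∀ i ∈ s, Prime (A i)) (hAA : ∀ i ∈ s, ∀ j ∈ s, i ≠ j → ¬ A i ∣ A j) :
    ∀ z : N, z ≠ 0 → (∀ v : HeightOneSpectrum R, (∀ i ∈ s, v.intValuation (A i) = 1) →
      IsPw q (v.valuation N z)) →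
    ∃ a : ι → ℕ, ∀ v : HeightOneSpectrum R,
      IsPw q (v.valuation N (z * ∏ i ∈ s, algebraMap R N (A i) ^ a i)) := by
  intro z hz hv
  have h1 : ∀ i ∈ s, ∃ n : ℕ, ∀ (hp : Prime (A i)),
      IsPw q ((vpr hp).valuation N z * exp (-(n : ℤ))) := by
    intro i hi
    obtain ⟨a, ha⟩ := exists_exp (γ := (vpr (hA i hi)).valuation N z)
      ((Valuation.ne_zero_iff _).2 hz)
    obtain ⟨n, hn⟩ := exists_shift hq a
    refine ⟨n, fun hp => ?_⟩
    rw [ha, ← exp_add]
    exact hn
  choose! a ha using h1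
  refine ⟨a, fun v => ?_⟩
  rw [map_mul, map_prod]
  simp only [map_pow, HeightOneSpectrum.valuation_of_algebraMap]
  by_cases h2 : ∀ i ∈ s, v.intValuation (A i) = 1
  · rw [Finset.prod_eq_one fun i hi => by rw [h2 i hi, one_pow], mul_one]
    exact hv v h2
  · push Not at h2
    obtain ⟨i, hi, h3⟩ := h2
    have hp := hA i hi
    rw [eq_vpr hp v h3, Finset.prod_eq_single_of_mem i hi, vpr_self, ← exp_nsmul]
    · have e : a i • (-1 : ℤ) = -(a i : ℤ) := by
        rw [nsmul_eq_mul]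
        ring
      rw [e]
      exact ha i hi hp
    · intro j hj hji
      rw [(vpr_eq_one hp (A j)).2 (hAA i hi j hj (Ne.symm hji)), one_pow]

end adjust

end Pool.Agent.X261.MS
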